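import Pool.Agent.C4U.Stmts

/-!
# Squad C4U, assembly (helper68)
-/

set_option autoImplicit false

namespace Pool.Agent.C4U.H68

open Pool.Agent.C4F (Lt cn NumF Runs DecidesIn C4FreeGraph encGraph HasIndep Kit ItrStmt PgrStmt
  PgbStmt ComStmt)
open Pool.Agent.Helper53_CookLevin (PGen)
open Pool.Agent.Helper53_Chan (Test)
open Turing

/-- the final theorem -/
def FinalStmt : Prop :=
  ∃ c : ℕ, ∀ k : ℕ, ∃ C : ℝ,
    DecidesIn encGraph (HasIndep k) (fun x => C * ((x.N : ℝ) + 1) ^ ((k : ℝ) / 2 + c))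

theorem runs_mono {Γ Δ : Type} {M : TM2ComputableAux Γ Δ} {w : List Γ} {v : List Δ} {t t' : ℕ}
    (h : Runs M w v t) (ht : t ≤ t') : Runs M w v t' := by
  obtain ⟨⟨⟨n, hn⟩, hle⟩⟩ := h
  exact ⟨⟨⟨n, hn⟩, hle.trans ht⟩⟩

theorem eval_mono (P : Polynomial ℕ) {a b : ℕ} (h : a ≤ b) : P.eval a ≤ P.eval b := by
  rw [Polynomial.eval_eq_sum, Polynomial.eval_eq_sum]
  unfold Polynomial.sum
  exact Finset.sum_le_sum fun i _ => Nat.mul_le_mul_left _ (Nat.pow_le_pow_left h i)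

theorem nw_eq {V V' : Gr} {m : List Lt} {c c' : ℕ → ℕ} (h1 : rd (sw V m c) = V)
    (h2 : rc (sw V m c) = c) (h3 : V.nV = V') (h4 : V.nC c = c') (hk : V'.k = V.k)
    (hN : V'.N = V.N) : nw (sw V m c) = sw V' m c' := by
  unfold nw
  rw [h1, h2, h3, h4]
  have hd : V.dd = V'.dd := by unfold Gr.dd; rw [hk]
  unfold sw
  rw [hk, hN, hd]
  rfl

open Classical in
theorem asm (itr : ItrStmt) (pgr : PgrStmt) (pgb : PgbStmt) (com : ComStmt) (kit : Kit)
    (run : RunStmt) (pre' : PreStmt) (prn : PrnStmt) (spl : SplStmt) (ini : IniStmt)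
    (swr : SwrStmt) (gra : GraStmt) (an1 : An1Stmt) (an2 : An2Stmt) : FinalStmt := by
  obtain ⟨hF, hT, hO⟩ := prn kit
  obtain ⟨F, hFg, hFe⟩ := spl.1 _ hF
  obtain ⟨T', hTt, hTe⟩ := spl.2 _ hT
  obtain ⟨O, hOg, hOe⟩ := spl.1 _ hO
  obtain ⟨G, hG, hGe⟩ := ini
  obtain ⟨M2, P2, h2⟩ := itr F T' hFg hTt
  obtain ⟨M1, P1, h1⟩ := pgr G hG
  obtain ⟨M3, P3, h3⟩ := pgb O hOg
  obtain ⟨d, hd⟩ := an1 (P1 + P2 + P3 + Polynomial.X + 1)
  refine ⟨d + 2, fun k => ?_⟩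
  obtain ⟨M0, c0, h0⟩ := pre' k
  obtain ⟨C1, hC1, hE⟩ := hd k
  obtain ⟨C2, hC2, hX⟩ := an2 k
  obtain ⟨M01, c1, h01⟩ := com _ _ _ M0 M1
  obtain ⟨M012, c2, h012⟩ := com _ _ _ M01 M2
  obtain ⟨M, c3, hM⟩ := com _ _ _ M012 M3
  obtain ⟨D, hD⟩ : ∃ D : ℕ, D = 2 * k + k * (k - 1) / 2 := ⟨_, rfl⟩
  refine ⟨(c3 * (c2 * (c1 * (c0 + 2) + 2) + 2) : ℕ) * (((k : ℝ) + 1 + D * C2) * C1), M,
    fun x => ?_⟩
  obtain ⟨g4, gI, gM⟩ := gra k x
  obtain ⟨V, hV⟩ : ∃ V : Gr, V = grOf k x (fun _ => False) := ⟨_, rfl⟩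
  rw [← hV] at g4 gI gM
  have hVk : V.k = k := by rw [hV]; rfl
  have hVN : V.N = x.N := by rw [hV]; rfl
  have hVJ : ∀ v, ¬ V.J v := by rw [hV]; exact fun v h => h
  obtain ⟨m, hm⟩ : ∃ m, m = (encGraph x).map fun b => if b then Lt.pos else Lt.neg := ⟨_, rfl⟩
  rw [← hm] at gM
  obtain ⟨T, J, c, hJ0, hc0, hTb, hst, hstep, hend, hacc⟩ := run V g4 hVJ
  -- the words of the states
  obtain ⟨Vj, hVj⟩ : ∃ Vj : ℕ → Gr, Vj = fun j => { V with J := J j } := ⟨_, rfl⟩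
  have hVj0 : Vj 0 = V := by rw [hVj]; simp only [hJ0]
  have hVj4 : ∀ j, (Vj j).Ok4 := by
    intro j; rw [hVj]; exact ⟨g4.rng, g4.symm, g4.irr, g4.free⟩
  have hVjk : ∀ j, (Vj j).k = V.k := by intro j; rw [hVj]
  have hVjN : ∀ j, (Vj j).N = V.N := by intro j; rw [hVj]
  have hVjM : ∀ j, IsMat (Vj j) m := by intro j; rw [hVj]; exact gM
  obtain ⟨z, hz⟩ : ∃ z : ℕ → List Lt, z = fun j => jn (sw (Vj j) m (c j)) := ⟨_, rfl⟩
  have hVjdd : ∀ j, (Vj j).dd = V.dd := by intro j; rw [hVj]; rfl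
  have hs : ∀ j ≤ T, rd (sw (Vj j) m (c j)) = Vj j ∧ rc (sw (Vj j) m (c j)) = c j ∧
      NoBar (sw (Vj j) m (c j)) ∧ (jn (sw (Vj j) m (c j))).length =
        V.k + V.N + V.N * V.N + V.N + V.dd * (V.N + 1) + 4 := by
    intro j hj
    obtain ⟨a1, a2⟩ := hst j hj
    have := swr (Vj j) m (c j) (hVj4 j) (by rw [hVj]; exact a1) (hVjM j)
      (by rw [hVjdd, hVjN]; exact a2)
    rw [hVjdd, hVjN, hVjk] at this
    exact this
  obtain ⟨S, hS⟩ : ∃ S : ℕ, S = k + x.N + x.N * x.N + x.N + D * (x.N + 1) + 4 := ⟨_, rfl⟩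
  have hlen : ∀ j ≤ T, (z j).length = S := by
    intro j hj
    have := (hs j hj).2.2.2
    rw [hz]
    show (jn (sw (Vj j) m (c j))).length = S
    rw [this, hS, hVk, hVN, hD]
    unfold Gr.dd
    rw [hVk]
  have hr2 : Runs M2 (z 0) (z T) ((T + 1) * P2.eval S) := by
    refine h2 z T S (fun j hj => ?_) ?_ (fun j hj => (hlen j hj).le)
    · obtain ⟨s1, s2, s3, -⟩ := hs j hj.le
      obtain ⟨a1, a2, a3⟩ := hstep j hj
      have b1 : (Vj j).Tc (c j) := by rw [hVj]; exact a1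
      have b2 : (Vj j).nV = Vj (j + 1) := by rw [hVj]; exact a2
      have b3 : (Vj j).nC (c j) = c (j + 1) := by rw [hVj]; exact a3
      constructor
      · rw [hz]
        refine (hTe _ s3).2 ?_
        show (rd (sw (Vj j) m (c j))).Tc (rc (sw (Vj j) m (c j)))
        rw [s1, s2]
        exact b1
      · rw [hz]
        show F (jn (sw (Vj j) m (c j))) = jn (sw (Vj (j + 1)) m (c (j + 1)))
        rw [hFe _ s3, nw_eq s1 s2 b2 b3 (by rw [hVjk, hVjk]) (by rw [hVjN, hVjN])]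
    · obtain ⟨s1, s2, s3, -⟩ := hs T le_rfl
      intro h
      rw [hz] at h
      have := (hTe _ s3).1 h
      rw [s1, s2] at this
      rw [hVj] at this
      exact hend this
  have hr3 : Runs M3 (z T) [decide (HasIndep k x)] (P3.eval S) := by
    obtain ⟨s1, s2, s3, -⟩ := hs T le_rfl
    have e1 : O (z T) = ow (sw (Vj T) m (c T)) := by rw [hz]; exact hOe _ s3
    have e2 : (O (z T)).map (fun c => decide (c = Lt.pos)) = [decide (HasIndep k x)] := by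
      rw [e1]
      unfold ow
      rw [s1, s2]
      have e3 : (Vj T).Acc (c T) ↔ HasIndep k x := by
        rw [hVj]; exact hacc.trans gI
      by_cases h : HasIndep k x
      · rw [if_pos (e3.2 h)]
        simp [h]
      · rw [if_neg (fun h' => h (e3.1 h'))]
        simp [h]
    have := h3 (z T)
    rw [e2, hlen T le_rfl] at this
    exact this
  have hr1 : Runs M1 (List.replicate k Lt.tick ++ Lt.bar :: m) (z 0)
      (P1.eval (List.replicate k Lt.tick ++ Lt.bar :: m).length) := by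
    have e1 : G (List.replicate k Lt.tick ++ Lt.bar :: m) = z 0 := by
      have := hGe V m hVJ gM
      rw [hVk] at this
      rw [this, hz]
      show _ = jn (sw (Vj 0) m (c 0))
      rw [hVj0, hc0]
    have := h1 (List.replicate k Lt.tick ++ Lt.bar :: m)
    rw [e1] at this
    exact this
  have hr0 := h0 (encGraph x)
  rw [← hm] at hr0
  have q1 := h01 _ _ _ _ _ hr0 hr1
  have q2 := h012 _ _ _ _ _ q1 hr2
  have q3 := hM _ _ _ _ _ q2 hr3
  refine ⟨_, ?_, q3⟩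
  -- the time
  have hlm : (encGraph x).length = x.N * x.N := by
    have := gM.1
    rw [hm, List.length_map, hVN] at this
    exact this
  have hl1 : (List.replicate k Lt.tick ++ Lt.bar :: m).length = k + (x.N * x.N + 1) := by
    rw [List.length_append, List.length_replicate, List.length_cons, gM.1, hVN]
  obtain ⟨E, hEd⟩ : ∃ E : ℕ, E = (P1 + P2 + P3 + Polynomial.X + 1 : Polynomial ℕ).eval S :=
    ⟨_, rfl⟩
  have hEs : E = P1.eval S + P2.eval S + P3.eval S + S + 1 := by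
    rw [hEd]
    simp
  have i1 : P1.eval (List.replicate k Lt.tick ++ Lt.bar :: m).length ≤ P1.eval S := by
    refine eval_mono _ ?_
    rw [hl1, hS]
    omega
  have i2 : x.N * x.N + 1 ≤ E := by rw [hEs, hS]; omega
  have hET : (T + 1) * P2.eval S ≤ (T + 1) * E := Nat.mul_le_mul_left _ (by omega)
  have hT1 : E ≤ (T + 1) * E := Nat.le_mul_of_pos_left _ (Nat.succ_pos _)
  have j1 : c1 * (c0 * ((encGraph x).length + 1) +
      P1.eval (List.replicate k Lt.tick ++ Lt.bar :: m).length + (encGraph x).length + 1) ≤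
      (c1 * (c0 + 2)) * ((T + 1) * E) := by
    rw [hlm]
    have : c0 * (x.N * x.N + 1) + P1.eval (List.replicate k Lt.tick ++ Lt.bar :: m).length +
        x.N * x.N + 1 ≤ (c0 + 2) * ((T + 1) * E) := by
      have a1 : c0 * (x.N * x.N + 1) ≤ c0 * ((T + 1) * E) :=
        Nat.mul_le_mul_left _ (i2.trans hT1)
      have a2 : P1.eval (List.replicate k Lt.tick ++ Lt.bar :: m).length ≤ (T + 1) * E := by
        omega
      have a3 : x.N * x.N + 1 ≤ (T + 1) * E := i2.trans hT1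
      nlinarith
    calc c1 * _ ≤ c1 * ((c0 + 2) * ((T + 1) * E)) := Nat.mul_le_mul_left _ this
      _ = _ := by ring
  have j2 : c2 * (c1 * (c0 * ((encGraph x).length + 1) +
      P1.eval (List.replicate k Lt.tick ++ Lt.bar :: m).length + (encGraph x).length + 1) +
      (T + 1) * P2.eval S + (encGraph x).length + 1) ≤
      (c2 * (c1 * (c0 + 2) + 2)) * ((T + 1) * E) := by
    rw [Nat.mul_assoc c2]
    refine Nat.mul_le_mul_left _ ?_
    have a3 : (encGraph x).length + 1 ≤ (T + 1) * E := by rw [hlm]; exact i2.trans hT1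
    have e : (c1 * (c0 + 2) + 2) * ((T + 1) * E) =
        (c1 * (c0 + 2)) * ((T + 1) * E) + (T + 1) * E + (T + 1) * E := by ring
    rw [e]
    omega
  have j3 : c3 * (c2 * (c1 * (c0 * ((encGraph x).length + 1) +
      P1.eval (List.replicate k Lt.tick ++ Lt.bar :: m).length + (encGraph x).length + 1) +
      (T + 1) * P2.eval S + (encGraph x).length + 1) + P3.eval S + (encGraph x).length + 1) ≤
      (c3 * (c2 * (c1 * (c0 + 2) + 2) + 2)) * ((T + 1) * E) := by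
    rw [Nat.mul_assoc c3]
    refine Nat.mul_le_mul_left _ ?_
    have a3 : (encGraph x).length + 1 ≤ (T + 1) * E := by rw [hlm]; exact i2.trans hT1
    have a4 : P3.eval S ≤ (T + 1) * E := by omega
    have e : (c2 * (c1 * (c0 + 2) + 2) + 2) * ((T + 1) * E) =
        (c2 * (c1 * (c0 + 2) + 2)) * ((T + 1) * E) + (T + 1) * E + (T + 1) * E := by ring
    rw [e]
    omega
  have hN1 : (1 : ℝ) ≤ (x.N : ℝ) + 1 := by
    have : (0 : ℝ) ≤ x.N := Nat.cast_nonneg _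
    linarith
  have hER : (E : ℝ) ≤ C1 * ((x.N : ℝ) + 1) ^ d := by
    have := hE x.N
    rw [← hD, ← hS, ← hEd] at this
    exact this
  have hTR : ((T + 1 : ℕ) : ℝ) ≤ ((k : ℝ) + 1 + D * C2) * ((x.N : ℝ) + 1) ^ ((k : ℝ) / 2 + 2) := by
    have hb : T ≤ k + D * (V.X * (x.N + 1)) := by
      have := hTb
      rw [hVk, hVN] at this
      unfold Gr.dd at this
      rw [hVk, ← hD] at this
      exact this
    have hXR : (V.X : ℝ) ≤ C2 * ((x.N : ℝ) + 1) ^ ((k : ℝ) / 2 + 1) := by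
      have := hX x.N
      unfold Gr.X
      rw [hVk, hVN]
      exact this
    have hp : ((x.N : ℝ) + 1) ^ ((k : ℝ) / 2 + 2) =
        ((x.N : ℝ) + 1) ^ ((k : ℝ) / 2 + 1) * ((x.N : ℝ) + 1) := by
      rw [show (k : ℝ) / 2 + 2 = ((k : ℝ) / 2 + 1) + 1 by ring,
        Real.rpow_add_one (by positivity)]
    have h1p : (1 : ℝ) ≤ ((x.N : ℝ) + 1) ^ ((k : ℝ) / 2 + 2) :=
      Real.one_le_rpow hN1 (by positivity)
    have hb' : (T : ℝ) ≤ k + D * (V.X * ((x.N : ℝ) + 1)) := by exact_mod_cast hb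
    have h5 : (V.X : ℝ) * ((x.N : ℝ) + 1) ≤ C2 * ((x.N : ℝ) + 1) ^ ((k : ℝ) / 2 + 2) := by
      rw [hp, ← mul_assoc]
      exact mul_le_mul_of_nonneg_right hXR (by positivity)
    have h6 : (D : ℝ) * (V.X * ((x.N : ℝ) + 1)) ≤
        D * (C2 * ((x.N : ℝ) + 1) ^ ((k : ℝ) / 2 + 2)) :=
      mul_le_mul_of_nonneg_left h5 (Nat.cast_nonneg _)
    have h7 : (k : ℝ) + 1 ≤ ((k : ℝ) + 1) * ((x.N : ℝ) + 1) ^ ((k : ℝ) / 2 + 2) :=
      le_mul_of_one_le_right (by positivity) h1p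
    push_cast
    nlinarith
  have hj : ((c3 * (c2 * (c1 * (c0 * ((encGraph x).length + 1) +
      P1.eval (List.replicate k Lt.tick ++ Lt.bar :: m).length + (encGraph x).length + 1) +
      (T + 1) * P2.eval S + (encGraph x).length + 1) + P3.eval S + (encGraph x).length + 1) : ℕ)
      : ℝ) ≤ ((c3 * (c2 * (c1 * (c0 + 2) + 2) + 2) : ℕ) : ℝ) * (((T + 1 : ℕ) : ℝ) * (E : ℝ)) := by
    exact_mod_cast j3
  refine hj.trans ?_
  have hfin : ((T + 1 : ℕ) : ℝ) * (E : ℝ) ≤ (((k : ℝ) + 1 + D * C2) * C1) *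
      ((x.N : ℝ) + 1) ^ ((k : ℝ) / 2 + ((d + 2 : ℕ) : ℝ)) := by
    have e1 : ((x.N : ℝ) + 1) ^ ((k : ℝ) / 2 + ((d + 2 : ℕ) : ℝ)) =
        ((x.N : ℝ) + 1) ^ ((k : ℝ) / 2 + 2) * ((x.N : ℝ) + 1) ^ d := by
      rw [show (k : ℝ) / 2 + ((d + 2 : ℕ) : ℝ) = ((k : ℝ) / 2 + 2) + (d : ℝ) by push_cast; ring,
        Real.rpow_add (by positivity), Real.rpow_natCast]
    rw [e1]
    calc ((T + 1 : ℕ) : ℝ) * (E : ℝ) ≤
        (((k : ℝ) + 1 + D * C2) * ((x.N : ℝ) + 1) ^ ((k : ℝ) / 2 + 2)) *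
          (C1 * ((x.N : ℝ) + 1) ^ d) := by
          refine mul_le_mul hTR hER (Nat.cast_nonneg _) ?_
          positivity
      _ = _ := by ring
  calc ((c3 * (c2 * (c1 * (c0 + 2) + 2) + 2) : ℕ) : ℝ) * (((T + 1 : ℕ) : ℝ) * (E : ℝ)) ≤
      ((c3 * (c2 * (c1 * (c0 + 2) + 2) + 2) : ℕ) : ℝ) * ((((k : ℝ) + 1 + D * C2) * C1) *
        ((x.N : ℝ) + 1) ^ ((k : ℝ) / 2 + ((d + 2 : ℕ) : ℝ))) :=
        mul_le_mul_of_nonneg_left hfin (Nat.cast_nonneg _)
    _ = _ := by ring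

end Pool.Agent.C4U.H68
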