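import Pool.Agent.C4U.Stmts

/-!
# Squad C4U, row IMP (helper68, in reserve)
-/

set_option autoImplicit false

namespace Pool.Agent.C4U.H68

open Pool.Agent.C4F (cn)

open Classical in
theorem cn_card (P : ℕ → Prop) (n : ℕ) : cn P n = ((Finset.range n).filter P).card := by
  unfold cn
  rw [Nat.count_eq_card_filter_range]

theorem imp : ImpStmt := by
  classical
  intro V h4 hJ x y him
  obtain ⟨hx, hy, h⟩ := him
  have hcs : ∀ a b, V.Cl a b → V.Cl b a := by
    intro a b hab
    rcases hab with rfl | hab
    · exact Or.inl rfl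
    · exact Or.inr (h4.symm _ _ hab)
  have hcr : ∀ a, V.Cl a a := fun a => Or.inl rfl
  have hxy : ¬ V.A x y := by
    rcases h with ⟨rfl, _⟩ | ⟨h, _⟩
    · exact h4.irr x
    · exact fun ha => h (Or.inr ha)
  refine ⟨⟨?_, ?_⟩, ?_⟩
  · intro w hw
    rcases hw with rfl | rfl | ⟨hw, _⟩
    · exact hx
    · exact hy
    · exact hJ.1 w hw
  · -- independent
    have key : ∀ w, V.J w → ¬ V.Cl x w → ¬ V.Cl y w := by
      intro w hw hxw hyw
      rcases h with ⟨rfl, _⟩ | ⟨_, a, _, _, hu⟩
      · exact hxw hyw
      · have h1 := hu w (hJ.1 w hw) hw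
        exact hxw (h1.1.2 (h1.2.1 hyw))
    intro u w hu hw hA
    change V.A u w at hA
    rcases hu with rfl | rfl | ⟨hu, hxu⟩ <;> rcases hw with rfl | rfl | ⟨hw, hxw⟩
    · exact h4.irr _ hA
    · exact hxy hA
    · exact hxw (Or.inr hA)
    · exact hxy (h4.symm _ _ hA)
    · exact h4.irr _ hA
    · exact key w hw hxw (Or.inr hA)
    · exact hxu (Or.inr (h4.symm _ _ hA))
    · exact key u hu hxu (Or.inr (h4.symm _ _ hA))
    · exact hJ.2 u w hu hw hA
  · rw [cn_card, cn_card]
    rcases h with ⟨rfl, h⟩ | ⟨hne, a, ha, hJa, hu⟩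
    · have hxJ : ¬ V.J x := fun hh => h x hx hh (hcr x)
      have : (Finset.range V.N).filter (V.J1 x x) = insert x ((Finset.range V.N).filter V.J) := by
        ext w
        simp only [Finset.mem_filter, Finset.mem_range, Finset.mem_insert]
        constructor
        · rintro ⟨hw, rfl | rfl | ⟨hw', _⟩⟩
          · exact Or.inl rfl
          · exact Or.inl rfl
          · exact Or.inr ⟨hw, hw'⟩
        · rintro (rfl | ⟨hw, hw'⟩)
          · exact ⟨hx, Or.inl rfl⟩
          · exact ⟨hw, Or.inr (Or.inr ⟨hw', h w hw hw'⟩)⟩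
      rw [this, Finset.card_insert_of_notMem]
      simp [hxJ]
    · have hxJ : ¬ V.J x := by
        intro hh
        have h1 := hu x hx hh
        have h2 : x = a := h1.1.1 (hcr x)
        have h3 := (hu a ha hJa).2.2 rfl
        exact hne (h2 ▸ hcs _ _ h3)
      have hyJ : ¬ V.J y := by
        intro hh
        have h1 := hu y hy hh
        have h2 : y = a := h1.2.1 (hcr y)
        have h3 := (hu a ha hJa).1.2 rfl
        exact hne (h2 ▸ h3)
      have hxney : x ≠ y := by
        rintro rfl
        exact hne (hcr x)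
      have : (Finset.range V.N).filter (V.J1 x y) =
          insert x (insert y (((Finset.range V.N).filter V.J).erase a)) := by
        ext w
        simp only [Finset.mem_filter, Finset.mem_range, Finset.mem_insert, Finset.mem_erase]
        constructor
        · rintro ⟨hw, rfl | rfl | ⟨hw', hn⟩⟩
          · exact Or.inl rfl
          · exact Or.inr (Or.inl rfl)
          · refine Or.inr (Or.inr ⟨?_, hw, hw'⟩)
            rintro rfl
            exact hn ((hu w ha hJa).1.2 rfl)
        · rintro (rfl | rfl | ⟨hwa, hw, hw'⟩)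
          · exact ⟨hx, Or.inl rfl⟩
          · exact ⟨hy, Or.inr (Or.inl rfl)⟩
          · exact ⟨hw, Or.inr (Or.inr ⟨hw', fun hc => hwa ((hu w hw hw').1.1 hc)⟩)⟩
      have hm : a ∈ (Finset.range V.N).filter V.J := by simp [ha, hJa]
      rw [this, Finset.card_insert_of_notMem, Finset.card_insert_of_notMem,
        Finset.card_erase_of_mem hm]
      · have : 0 < ((Finset.range V.N).filter V.J).card := Finset.card_pos.2 ⟨a, hm⟩
        omega
      · simp [hyJ]
      · simp [hxJ, hxney]

end Pool.Agent.C4U.H68
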