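import Pool.Agent.C4U.Stmts

/-!
# Squad C4U, row RUN (helper68, in reserve)
-/

set_option autoImplicit false

namespace Pool.Agent.C4U.H68R

open Pool.Agent.C4F (cn)

open Classical in
theorem cn_card (P : ℕ → Prop) (n : ℕ) : cn P n = ((Finset.range n).filter P).card := by
  unfold cn
  rw [Nat.count_eq_card_filter_range]

theorem cn_zero {P : ℕ → Prop} {n : ℕ} (h : ∀ v < n, ¬ P v) : cn P n = 0 := by
  classical
  rw [cn_card, Finset.card_eq_zero, Finset.filter_eq_empty_iff]
  intro v hv
  exact h v (Finset.mem_range.1 hv)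

open Classical in
theorem ind_of_card (V : Gr) (hJ : V.JInd) (h : cn V.J V.N = V.k) : V.Ind := by
  rw [cn_card] at h
  set s := (Finset.range V.N).filter V.J with hs
  have hm : ∀ i : Fin V.k, s.orderEmbOfFin h i < V.N ∧ V.J (s.orderEmbOfFin h i) := by
    intro i
    have h1 : s.orderEmbOfFin h i ∈ s := Finset.orderEmbOfFin_mem s h i
    have h2 : ∀ v ∈ s, v < V.N ∧ V.J v := by
      intro v hv
      rw [hs, Finset.mem_filter, Finset.mem_range] at hv
      exact hv
    exact h2 _ h1
  refine ⟨fun i => if hi : i < V.k then s.orderEmbOfFin h ⟨i, hi⟩ else 0, ?_, ?_⟩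
  · intro i hi
    have h1 := hm ⟨i, hi⟩
    simp only [hi, dif_pos]
    exact h1.1
  · intro j hj i hij hc
    have hi : i < V.k := hij.trans hj
    simp only [hi, hj, dif_pos] at hc
    have h1 := hm ⟨i, hi⟩
    have h2 := hm ⟨j, hj⟩
    rcases hc with hc | hc
    · have h3 := (s.orderEmbOfFin h).injective hc
      have h4 : i = j := by simpa using h3
      omega
    · exact hJ.2 _ _ h1.2 h2.2 hc

theorem ok_zero (V : Gr) (hk : 1 ≤ V.k) : V.Ok (fun _ => 0) := by
  have h0 : ln V.dd (fun _ => 0) = 0 := by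
    unfold ln
    exact cn_zero fun v _ h => by simpa using h 0 (by omega)
  refine ⟨?_, ?_⟩
  · intro e he
    omega
  · intro h
    omega

theorem isSt_zero (D B : ℕ) : IsSt D B (fun _ => 0) :=
  ⟨0, Nat.zero_le _, fun e he => absurd he (Nat.not_lt_zero _), fun _ _ => rfl⟩

theorem main (imp : ImpStmt) (psi : PsiStmt) (prf : PrfStmt) (mat : MatStmt) (cnt : CntStmt)
    (dfs : DfsStmt) : ∀ (n : ℕ) (V : Gr), V.Ok4 → V.JInd → cn V.J V.N + n = V.k →
    ∃ (T : ℕ) (J : ℕ → ℕ → Prop) (c : ℕ → ℕ → ℕ),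
    J 0 = V.J ∧ c 0 = (fun _ => 0) ∧ T ≤ n + V.dd * (V.X * (V.N + 1)) ∧
    (∀ j ≤ T, ({ V with J := J j } : Gr).JInd ∧ IsSt V.dd (V.N + 1) (c j)) ∧
    (∀ j < T, ({ V with J := J j } : Gr).Tc (c j) ∧
      ({ V with J := J j } : Gr).nV = { V with J := J (j + 1) } ∧
      ({ V with J := J j } : Gr).nC (c j) = c (j + 1)) ∧
    ¬ ({ V with J := J T } : Gr).Tc (c T) ∧
    (({ V with J := J T } : Gr).Acc (c T) ↔ V.Ind) := by
  intro n
  induction n with
  | zero =>
    intro V h4 hJ hn
    refine ⟨0, fun _ => V.J, fun _ _ => 0, rfl, rfl, Nat.zero_le _, fun j _ => ⟨hJ, isSt_zero _ _⟩,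
      fun j hj => absurd hj (Nat.not_lt_zero _), ?_, ?_⟩
    · intro h
      exact h.1 (by change V.k ≤ cn V.J V.N; omega)
    · constructor
      · intro _
        exact ind_of_card V hJ (by omega)
      · intro _
        exact Or.inl (by change V.k ≤ cn V.J V.N; omega)
  | succ n ih =>
    intro V h4 hJ hn
    have hkk : ¬ V.k ≤ cn V.J V.N := by omega
    by_cases hI : V.Impr
    · have h1 := imp V h4 hJ _ _ ((psi V).1 hI)
      obtain ⟨T, J, c, a1, a2, a3, a4, a5, a6, a7⟩ := ih ({ V with J := V.J2 } : Gr)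
        ⟨h4.rng, h4.symm, h4.irr, h4.free⟩ h1.1 (by
          have := h1.2
          change cn V.J2 V.N + n = V.k
          change cn V.J2 V.N = _ at this
          omega)
      refine ⟨T + 1, fun j => Nat.casesOn j V.J J, fun j => Nat.casesOn j (fun _ => 0) c, rfl, rfl,
        ?_, ?_, ?_, ?_, ?_⟩
      · change T ≤ n + V.dd * (V.X * (V.N + 1)) at a3
        omega
      · intro j hj
        cases j with
        | zero => exact ⟨hJ, isSt_zero _ _⟩
        | succ j => exact a4 j (by omega)
      · intro j hj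
        cases j with
        | zero =>
          refine ⟨⟨hkk, Or.inl hI⟩, ?_, ?_⟩
          · change V.nV = { V with J := J 0 }
            rw [a1]
            unfold Gr.nV
            rw [if_pos hI]
          · change V.nC (fun _ => 0) = c 0
            rw [a2]
            unfold Gr.nC
            rw [if_pos hI]
        | succ j => exact a5 j (by omega)
      · exact a6
      · exact a7
    · have hN := (psi V).2 hI
      have hcn : cn V.J V.N < V.k := by omega
      obtain ⟨T, z, b1, b2, b3, b4, b5, b6⟩ := dfs V.Ok V.dd (V.N + 1) V.X (by omega)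
        (cnt V hcn 0).2 (ok_zero V (by omega)) (fun c n hc ho => prf V c n hc ho)
        (fun l _ => (cnt V hcn l).1)
      refine ⟨T, fun _ => V.J, z, rfl, b1, by omega, fun j hj => ⟨hJ, b3 j hj⟩, ?_, ?_, ?_⟩
      · intro j hj
        refine ⟨⟨hkk, Or.inr (b4 j hj).1⟩, ?_, ?_⟩
        · change V.nV = V
          unfold Gr.nV
          rw [if_neg hI]
        · change V.nC (z j) = z (j + 1)
          unfold Gr.nC
          rw [if_neg hI, (b4 j hj).2]
      · rintro ⟨_, h | h⟩
        · exact hI h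
        · exact b5 h
      · constructor
        · rintro (h | h)
          · exact absurd h hkk
          · exact (mat V h4 hJ hN).1 (b6.1 h)
        · intro h
          exact Or.inr (b6.2 ((mat V h4 hJ hN).2 h))

theorem run (imp : ImpStmt) (psi : PsiStmt) (prf : PrfStmt) (mat : MatStmt) (cnt : CntStmt)
    (dfs : DfsStmt) : RunStmt := by
  intro V h4 hJ
  have h0 : cn V.J V.N = 0 := cn_zero fun v _ => hJ v
  obtain ⟨T, J, c, h⟩ := main imp psi prf mat cnt dfs V.k V h4
    ⟨fun x hx => absurd hx (hJ x), fun x _ hx => absurd hx (hJ x)⟩ (by omega)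
  exact ⟨T, J, c, h⟩

end Pool.Agent.C4U.H68R
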