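import Pool.Agent.Helper77_C4U.CNL
import Pool.Agent.Helper27_C4U.OPW
import Pool.Agent.Helper6_C4U.DYE
import Pool.Agent.Helper37_C4U.DYN
import Pool.Agent.Helper23_C4U.STL
import Pool.Agent.Helper2_C4U.DFS
import Pool.Agent.Helper68_C4U.IMP
import Pool.Agent.Helper45_C4U.PSI
import Pool.Agent.Helper19_C4U.CLQ
import Pool.Agent.Helper95_C4U.COV
import Pool.Agent.Helper94_C4U.NST
import Pool.Agent.Helper15_C4U.NSB
import Pool.Agent.Helper7_C4U.PRS
import Pool.Agent.Helper81_C4U.PRF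
import Pool.Agent.Helper34_C4U.MAT
import Pool.Agent.Helper19_C4U.CSL
import Pool.Agent.Helper14_C4U.BOX
import Pool.Agent.Helper3_C4U.DEG
import Pool.Agent.Helper7_C4U.CN1
import Pool.Agent.Helper13_C4U.CNT
import Pool.Agent.Helper68_C4U.RUN
import Pool.Agent.Helper36_C4U.PRE
import Pool.Agent.Helper32_C4U.PRA
import Pool.Agent.Helper60_C4U.PRD
import Pool.Agent.Helper69_C4U.PRQ
import Pool.Agent.Helper66_C4U.PRO
import Pool.Agent.Helper59_C4U.PRI
import Pool.Agent.Helper5_C4U.RowPRN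
import Pool.Agent.Helper82_C4U.SPL
import Pool.Agent.Helper81_C4U.INI
import Pool.Agent.Helper16_C4U.SWR
import Pool.Agent.Helper62_C4U.GRA
import Pool.Agent.Helper32_C4U.AN1
import Pool.Agent.Helper98_C4U.An2
import Pool.Agent.Helper68_C4U.ASM
import Pool.Agent.Helper91_C4F.Itr
import Pool.Agent.Helper49_C4F.PGR
import Pool.Agent.Helper32_C4F.Com
import Pool.Agent.Helper60_C4F.KIT

/-!
# Squad C4U, all rows put together (helper68)
-/

set_option autoImplicit false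

namespace Pool.Agent.C4U.H68

open Pool.Agent.C4U

theorem xcnl : CnlStmt := Pool.Agent.C4U.H77.cnl
theorem xopw : OpwStmt := Pool.Agent.C4U.H27.opw xcnl
theorem xdye : DyeStmt := Pool.Agent.C4U.H6.dye xopw
theorem xdyn : DynStmt := Pool.Agent.C4U.H37.dyn xopw
theorem xstl : StlStmt := Pool.Agent.C4U.H23.stl xcnl
theorem xdfs : DfsStmt := Pool.Agent.C4U.H2.dfs xstl
theorem ximp : ImpStmt := Pool.Agent.C4U.H68.imp
theorem xpsi : PsiStmt := Pool.Agent.C4U.H45.psi xcnl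
theorem xclq : ClqStmt := Pool.Agent.C4U.H19.clq
theorem xcov : CovStmt := Pool.Agent.C4U.H95.cov
theorem xnst : NstStmt := Pool.Agent.C4U.H94.nst xcnl
theorem xnsb : NsbStmt := Pool.Agent.C4U.H15.nsb xcnl
theorem xprs : PrsStmt := Pool.Agent.C4U.H7.prs
theorem xprf : PrfStmt := Pool.Agent.C4U.H81.prf xstl xprs
theorem xmat : MatStmt := Pool.Agent.C4U.H34.mat xclq xcov xnst xnsb xdye xstl xprs
theorem xcsl : CslStmt := Pool.Agent.C4U.H19.csl
theorem xbox : BoxStmt := Pool.Agent.C4U.H14.box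
theorem xdeg : DegStmt := Pool.Agent.C4U.H3.deg
theorem xcn1 : Cn1Stmt := Pool.Agent.C4U.H7.cn1 xcnl xstl xprs xdyn xcsl xbox xdeg
theorem xcnt : CntStmt := Pool.Agent.C4U.H13.cnt xcnl xstl xbox xcn1
theorem xrun : RunStmt := Pool.Agent.C4U.H68R.run ximp xpsi xprf xmat xcnt xdfs
theorem xpre : PreStmt := Pool.Agent.C4U.H36.pre
theorem xpra : PraStmt := Pool.Agent.C4U.H32.pra
theorem xprd : PrdStmt := Pool.Agent.C4U.H60.prd
theorem xprq : PrqStmt := Pool.Agent.C4U.H69.prq xpra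
theorem xpro : ProStmt := Pool.Agent.C4U.H66.pro xpra xprd xprq
theorem xpri : PriStmt := Pool.Agent.C4U.H59.pri xpra
theorem xprn : PrnStmt := Pool.Agent.C4U.H5.prn xpra xpro xpri
theorem xspl : SplStmt := Pool.Agent.C4U.H82.spl
theorem xini : IniStmt := Pool.Agent.C4U.H81.ini
theorem xswr : SwrStmt := Pool.Agent.C4U.H16.swr xcnl
theorem xgra : GraStmt := Pool.Agent.C4U.H62.gra
theorem xan1 : An1Stmt := Pool.Agent.C4U.H32.an1
theorem xan2 : An2Stmt := Pool.Agent.C4U.H98.an2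

theorem final : FinalStmt :=
  asm Pool.Agent.C4F.H91.itr Pool.Agent.C4F.H49.pgr Pool.Agent.C4F.H49.pgb
    Pool.Agent.C4F.H32.com Pool.Agent.C4F.H60.kit xrun xpre xprn xspl xini xswr xgra xan1 xan2

end Pool.Agent.C4U.H68
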